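import Pool.Agent.Helper21.MT9.Stmts
import Pool.Agent.Helper43.MT7.HDG7

/-!
# T9, modules GRA and HSM
-/

set_option autoImplicit false

open NumberField MU

namespace MT

/-- GRA: the homogeneous components. -/
theorem st_GRA : ST_GRA := by
  classical
  intro K _ _ n a d h A hA x
  -- products of the differences
  have key : ∀ T : Finset ℤ, Matrix.of (fun i j =>
      (∏ s ∈ T, (((d i - d j : ℤ) : K) - (s : K))) * A i j) ∈ a := by
    intro T
    induction T using Finset.induction_on with
    | empty =>
      have : Matrix.of (fun i j => (∏ s ∈ (∅ : Finset ℤ), (((d i - d j : ℤ) : K) - (s : K))) * A i j) = A := by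
        ext i j; simp
      rw [this]; exact hA
    | insert s T hs ih =>
      set B := Matrix.of (fun i j => (∏ s ∈ T, (((d i - d j : ℤ) : K) - (s : K))) * A i j) with hB
      have h1 := h B ih
      have h2 := a.sub_mem h1 (a.smul_mem ((s : ℤ) : K) ih)
      convert h2 using 1
      ext i j
      rw [Matrix.of_apply, Finset.prod_insert hs, Matrix.sub_apply, Matrix.sub_apply, Matrix.smul_apply,
        Matrix.diagonal_mul, Matrix.mul_diagonal, hB, Matrix.of_apply, smul_eq_mul]
      push_cast
      ring
  -- the degrees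
  set T : Finset ℤ := (Finset.univ.image (fun p : Fin n × Fin n => d p.1 - d p.2)).erase x with hT
  have hc : (∏ s ∈ T, ((x : K) - (s : K))) ≠ 0 := by
    rw [Finset.prod_ne_zero_iff]
    intro s hs
    rw [sub_ne_zero]
    intro h'
    have : x = s := by exact_mod_cast h'
    exact (Finset.mem_erase.1 hs).1 this.symm
  have h1 := a.smul_mem (∏ s ∈ T, ((x : K) - (s : K)))⁻¹ (key T)
  convert h1 using 1
  ext i j
  rw [Matrix.smul_apply, Matrix.of_apply, smul_eq_mul]
  show (if d i - d j = x then A i j else 0) = _
  split_ifs with hx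
  · rw [hx, ← mul_assoc, inv_mul_cancel₀ hc, one_mul]
  · have : ∏ s ∈ T, (((d i - d j : ℤ) : K) - (s : K)) = 0 := by
      apply Finset.prod_eq_zero (i := d i - d j)
      · rw [hT, Finset.mem_erase]
        exact ⟨hx, Finset.mem_image.2 ⟨(i, j), Finset.mem_univ _, rfl⟩⟩
      · simp
    rw [this, zero_mul, mul_zero]

/-- HSM: the Hodge types are symmetric. -/
theorem st_HSM : ST_HSM := by
  intro F _ _ S n w h M
  exact Hdg.sum_h M

end MT
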